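import Pool.Agent.helper60.MW.Spec

/-!
# Project mw, row HRM (harmonic pigeonhole)
-/

set_option autoImplicit false

namespace Pool.Agent.MW

open MeasureTheory Set Pool.Agent.helper17.Worm

theorem HRM : HRM_stmt := by
  intro C ε c b₀ hC hε
  set S : ℕ → ℝ := fun n => ∑ i ∈ Finset.range n, (1 / ((i : ℝ) + 1)) with hS
  have hmono : Monotone S := by
    intro m n hmn
    refine Finset.sum_le_sum_of_subset_of_nonneg (Finset.range_mono hmn) fun i _ _ => ?_
    positivity
  obtain ⟨n, hn⟩ := ((Real.tendsto_sum_range_one_div_nat_succ_atTop).eventually_gt_atTop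
    (S (b₀ + c) + C / ε)).exists
  refine ⟨n + b₀, fun e he hsum => ?_⟩
  by_contra hcon
  push Not at hcon
  have h1 : ∀ b ∈ Finset.Ico b₀ (n + b₀), ε / C * (1 / (((b + c : ℕ) : ℝ) + 1)) ≤ e b := by
    intro b hb
    rw [Finset.mem_Ico] at hb
    have h2 := hcon b hb.1 hb.2
    have h3 : (0 : ℝ) ≤ (b : ℝ) + c := by positivity
    have h4 : ε / C * (1 / (((b + c : ℕ) : ℝ) + 1)) = ε / (C * ((b : ℝ) + c + 1)) := by
      push_cast
      field_simp
    rw [h4, div_le_iff₀ (by positivity)]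
    have h5 := he b
    nlinarith [mul_nonneg h5 hC.le]
  have h2 : ∑ b ∈ Finset.Ico b₀ (n + b₀), e b ≤ ∑ b ∈ Finset.range (n + b₀), e b := by
    refine Finset.sum_le_sum_of_subset_of_nonneg ?_ fun i _ _ => he i
    intro i hi
    rw [Finset.mem_Ico] at hi
    exact Finset.mem_range.2 hi.2
  have h3 := Finset.sum_le_sum h1
  rw [← Finset.mul_sum] at h3
  have h4 : ∑ b ∈ Finset.Ico b₀ (n + b₀), (1 / (((b + c : ℕ) : ℝ) + 1)) =
      S (n + b₀ + c) - S (b₀ + c) := by
    have h5 := Finset.sum_Ico_add' (fun i : ℕ => (1 / ((i : ℝ) + 1))) b₀ (n + b₀) c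
    rw [h5, Finset.sum_Ico_eq_sub _ (by omega)]
  rw [h4] at h3
  have h5 : S n ≤ S (n + b₀ + c) := hmono (by omega)
  have h6 : C / ε < S (n + b₀ + c) - S (b₀ + c) := by
    have h7 : S (b₀ + c) + C / ε < S n := hn
    linarith
  have h7 : 1 < ε / C * (S (n + b₀ + c) - S (b₀ + c)) := by
    have h8 : ε / C * (C / ε) = 1 := by field_simp
    rw [← h8]
    exact mul_lt_mul_of_pos_left h6 (by positivity)
  linarith

end Pool.Agent.MW
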