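import Pool.Agent.helper60.MW.Spec

/-!
# Project mw, row UAR (area of the neighbourhood of the dense squares)
-/

set_option autoImplicit false

namespace Pool.Agent.MW

open MeasureTheory Set Pool.Agent.helper17.Worm

theorem UAR_nbh (L : ℕ) (x y : ℤ) (W : ℝ) (hW : 0 ≤ W) :
    volume (nbh L x y W) = ENNReal.ofReal ((1 + 2 * W * 2 ^ L) ^ 2 / 4 ^ L) := by
  have h1 : nbh L x y W = Complex.measurableEquivRealProd ⁻¹'
      (Icc ((x : ℝ) / 2 ^ L - W) ((x + 1 : ℝ) / 2 ^ L + W) ×ˢ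
        Icc ((y : ℝ) / 2 ^ L - W) ((y + 1 : ℝ) / 2 ^ L + W)) := by
    ext z
    simp [nbh, Complex.mem_reProdIm]
    tauto
  have h2 : (0 : ℝ) < 2 ^ L := by positivity
  have h3 : (4 : ℝ) ^ L = 2 ^ L * 2 ^ L := by
    rw [← mul_pow]
    norm_num
  have h4 : (x + 1 : ℝ) / 2 ^ L + W - ((x : ℝ) / 2 ^ L - W) = (1 + 2 * W * 2 ^ L) / 2 ^ L := by
    field_simp
    ring
  have h5 : (y + 1 : ℝ) / 2 ^ L + W - ((y : ℝ) / 2 ^ L - W) = (1 + 2 * W * 2 ^ L) / 2 ^ L := by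
    field_simp
    ring
  rw [h1, Complex.volume_preserving_equiv_real_prod.measure_preimage_equiv,
    Measure.volume_eq_prod, Measure.prod_prod, Real.volume_Icc, Real.volume_Icc, h4, h5,
    ← ENNReal.ofReal_mul (by positivity), h3]
  congr 1
  field_simp

theorem UAR : UAR_stmt := by
  intro D L κ W hD hκ hκ8 hW
  have hpos : 0 < 1 - 4 * κ := by linarith
  have h4 : (0 : ℝ) < 4 ^ L := by positivity
  have hsub : UU D L κ W ⊆ ⋃ s : ℤ × ℤ, {z | 1 - 4 * κ ≤ D s.1 s.2 ∧ z ∈ nbh L s.1 s.2 W} := by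
    rintro z ⟨x, y, h1, h2⟩
    rw [mem_iUnion]
    exact ⟨(x, y), h1, h2⟩
  refine (measure_mono hsub).trans ((measure_iUnion_le _).trans ?_)
  rw [← ENNReal.tsum_mul_left]
  refine ENNReal.tsum_le_tsum fun s => ?_
  by_cases h : 1 - 4 * κ ≤ D s.1 s.2
  · have h1 : volume {z | 1 - 4 * κ ≤ D s.1 s.2 ∧ z ∈ nbh L s.1 s.2 W} ≤
        volume (nbh L s.1 s.2 W) := measure_mono fun z hz => hz.2
    refine h1.trans ?_
    rw [UAR_nbh L s.1 s.2 W hW, ← ENNReal.ofReal_mul (by positivity)]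
    apply ENNReal.ofReal_le_ofReal
    have e : (1 + 2 * W * 2 ^ L) ^ 2 / (1 - 4 * κ) * (D s.1 s.2 / 4 ^ L) =
        (1 + 2 * W * 2 ^ L) ^ 2 / 4 ^ L * (D s.1 s.2 / (1 - 4 * κ)) := by
      field_simp
    rw [e]
    have h2 : 1 ≤ D s.1 s.2 / (1 - 4 * κ) := by
      rw [le_div_iff₀ hpos]
      linarith
    have h3 : 0 ≤ (1 + 2 * W * 2 ^ L) ^ 2 / 4 ^ L := by positivity
    exact le_mul_of_one_le_right h3 h2
  · have h1 : {z | 1 - 4 * κ ≤ D s.1 s.2 ∧ z ∈ nbh L s.1 s.2 W} = ∅ := by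
      ext z
      constructor
      · rintro ⟨h2, -⟩
        exact absurd h2 h
      · intro h2
        exact absurd h2 (notMem_empty z)
    rw [h1, measure_empty]
    exact zero_le

end Pool.Agent.MW
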