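import Pool.Agent.helper60.MW.SpecC

/-!
# Project mw, row FNL (the constant of Moser is the limit of explicit finite problems)
-/

set_option autoImplicit false

namespace Pool.Agent.MW

open MeasureTheory Set Pool.Agent.helper17.Worm

theorem FNL_LL (j : ℕ) : 10 * j + 100 ≤ LL j := by
  unfold LL
  have h1 : 10 * j + 100 < 2 ^ (10 * j + 100) := Nat.lt_two_pow_self
  have h2 : 2 ^ (10 * j + 100) < 2 ^ (2 ^ (10 * j + 100)) := Nat.lt_two_pow_self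
  have h3 : 2 ^ (2 ^ (10 * j + 100)) < 2 ^ (2 ^ (2 ^ (10 * j + 100))) := Nat.lt_two_pow_self
  exact (h1.trans (h2.trans h3)).le

theorem FNL_csq (m : ℕ) (s : ℤ × ℤ) : volume (csq m s) = ENNReal.ofReal (1 / (m : ℝ) ^ 2) := by
  have h1 : csq m s = Complex.measurableEquivRealProd ⁻¹'
      (Icc ((s.1 : ℝ) / m) ((s.1 + 1 : ℝ) / m) ×ˢ Icc ((s.2 : ℝ) / m) ((s.2 + 1 : ℝ) / m)) := by
    ext z
    simp [csq, Complex.mem_reProdIm]
    tauto
  have h4 : ∀ y : ℝ, (y + 1 : ℝ) / m - y / m = 1 / m := by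
    intro y
    ring
  rw [h1, Complex.volume_preserving_equiv_real_prod.measure_preimage_equiv,
    Measure.volume_eq_prod, Measure.prod_prod, Real.volume_Icc, Real.volume_Icc, h4, h4,
    ← ENNReal.ofReal_mul (by positivity)]
  congr 1
  ring

theorem FNL_lower (hLFC : LFC_stmt) (m n B : ℕ) (hm : 1 ≤ m) (hn : 8 * m ≤ n)
    (hne : {c : ℕ | ∃ S : Finset (ℤ × ℤ), (∀ s ∈ S, 0 ≤ s.1 ∧ s.1 ≤ B ∧ 0 ≤ s.2 ∧ s.2 ≤ B) ∧
      FinCov m n S ∧ S.card = c}.Nonempty) :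
    mu ≤ ENNReal.ofReal ((opt m n B : ℝ) / (m : ℝ) ^ 2) := by
  obtain ⟨S, -, hS, hc⟩ := Nat.sInf_mem hne
  have hc' : S.card = opt m n B := hc
  have hw := hLFC m n S hm hn hS
  have h1 : mu ≤ volume (⋃ s ∈ S, csq m s) := sInf_le ⟨_, hw, rfl⟩
  refine h1.trans ((measure_biUnion_finset_le S _).trans ?_)
  rw [Finset.sum_congr rfl (fun s _ => FNL_csq m s), Finset.sum_const, nsmul_eq_mul, hc',
    ← ENNReal.ofReal_natCast, ← ENNReal.ofReal_mul (by positivity)]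
  apply ENNReal.ofReal_le_ofReal
  apply le_of_eq
  ring

theorem FNL_a (x e : ℝ) (hx : 0 < x) (hx64 : x ≤ 1 / 64) (he : 0 ≤ e) (he' : e ≤ x / 4) :
    ((1 + e) / (1 - x)) ^ 2 ≤ 1 + 5 * x := by
  have h2 : 0 < 1 - x := by linarith
  rw [div_pow, div_le_iff₀ (by positivity)]
  have h4 : (1 + e) ^ 2 ≤ (1 + x / 4) ^ 2 := by
    apply pow_le_pow_left₀ (by linarith)
    linarith
  refine h4.trans ?_
  nlinarith [mul_pos hx hx, mul_pos (mul_pos hx hx) hx]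

theorem FNL_b (x M : ℝ) (hx : 0 < x) (hx64 : x ≤ 1 / 64) (hM1 : M ≤ 1) :
    (1 + 5 * x) * (M + 2 * x) ≤ M + 8 * x := by
  nlinarith [mul_pos hx hx, mul_le_mul_of_nonneg_left hM1 hx.le,
      mul_le_mul_of_nonneg_left hx64 hx.le]

theorem FNL_c (x M : ℝ) (hx : 0 < x) (hx64 : x ≤ 1 / 64) (hM0 : 0 ≤ M) (hM1 : M ≤ 1) :
    (M + 8 * x) * (1 + x) ^ 2 ≤ M + 64 * x := by
  nlinarith [mul_pos hx hx, mul_le_mul_of_nonneg_left hM1 hx.le,
      mul_le_mul_of_nonneg_left hx64 hx.le, mul_nonneg hM0 hx.le,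
      mul_le_mul_of_nonneg_left hM1 (mul_pos hx hx).le,
      mul_le_mul_of_nonneg_left hx64 (mul_pos hx hx).le]

theorem FNL_d (t m : ℝ) (ht : 0 < t) (hm : m = 8 * t) : 6 / m ≤ 1 / t := by
  rw [hm, div_le_div_iff₀ (by positivity) ht]
  nlinarith

theorem FNL_e (k m ll : ℕ) (hMk : m = 2 ^ (ll + 3)) (h : 10 * (k + 6) + 100 ≤ ll) :
    128 * (2 ^ (k + 6) + 1) ≤ m := by
  have h1 : 2 ^ (k + 14) ≤ m := by
    rw [hMk]
    exact Nat.pow_le_pow_right (by norm_num) (by omega)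
  have h2 : 2 ^ (k + 14) = 256 * 2 ^ (k + 6) := by
    rw [show k + 14 = (k + 6) + 8 by omega, pow_add]
    ring
  have h3 : 1 ≤ 2 ^ (k + 6) := Nat.one_le_two_pow
  generalize 2 ^ (k + 6) = t at *
  omega

theorem FNL_f (k m : ℕ) (h : 128 * (2 ^ (k + 6) + 1) ≤ m) : 1 ≤ m ∧ 2 ^ (k + 6) ≤ m := by
  generalize 2 ^ (k + 6) = t at *
  omega

theorem FNL (hMUX : MUX_stmt) (hUTX : UTX_stmt) (hSCY : SCY_stmt) (hLFS : LFS_stmt)
    (hBXW : BXW_stmt) (hLFC : LFC_stmt) : FNL_stmt := by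
  intro k
  obtain ⟨X, V, M, hM0, hM1, hMmu, hXo, hXc, hX1, hV0, hXV, hVt⟩ := hMUX
  set x : ℝ := 1 / 2 ^ (k + 6) with hx
  have hxpos : 0 < x := by positivity
  have hx64 : x ≤ 1 / 64 := by
    rw [hx]
    apply one_div_le_one_div_of_le (by norm_num)
    calc (64 : ℝ) = 2 ^ 6 := by norm_num
      _ ≤ 2 ^ (k + 6) := pow_le_pow_right₀ (by norm_num) (by omega)
  have hx2 : 64 * x = 1 / 2 ^ k := by
    rw [hx, pow_add]
    field_simp
    norm_num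
  have hx3 : (2 : ℝ) ^ (k + 6) * x = 1 := by
    rw [hx]
    field_simp
  obtain ⟨i, hi⟩ := (hVt.eventually_le_const (show M < M + x by linarith)).exists
  have hUk := hUTX (k + 6) (by omega) (X i) (hXo i) (hXc i) (hX1 i)
  have hLk := FNL_LL (k + 6)
  have hMk : Mk k = 2 ^ (LL (k + 6) + 3) := rfl
  generalize hm : Mk k = m at hMk
  generalize LL (k + 6) = ll at hUk hLk hMk
  obtain ⟨Y, hYc, hYX, hY⟩ := hUk
  have hmll : (m : ℝ) = 8 * 2 ^ ll := by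
    rw [hMk, pow_add]
    push_cast
    ring
  have hmbig : 128 * (2 ^ (k + 6) + 1) ≤ m := FNL_e k m ll hMk hLk
  clear hMk hLk
  obtain ⟨hm1, hm2⟩ := FNL_f k m hmbig
  have hmpos : (0 : ℝ) < m := by exact_mod_cast hm1
  have hmx : 1 / (m : ℝ) ≤ x := by
    rw [hx]
    apply one_div_le_one_div_of_le (by positivity)
    exact_mod_cast hm2
  -- the thick set
  have hYvol : volume Y ≤ ENNReal.ofReal (M + 2 * x) := by
    have h1 : volume Y ≤ volume (X i) + volume (Y \ X i) := by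
      refine (measure_mono (show Y ⊆ X i ∪ (Y \ X i) from ?_)).trans (measure_union_le _ _)
      intro z hz
      by_cases h : z ∈ X i
      · exact Or.inl h
      · exact Or.inr ⟨hz, h⟩
    refine h1.trans ((add_le_add ((hXV i).trans (ENNReal.ofReal_le_ofReal hi)) hYX).trans ?_)
    rw [← ENNReal.ofReal_add (by linarith) hxpos.le]
    apply ENNReal.ofReal_le_ofReal
    linarith
  have hδpos : (0 : ℝ) < 1 / 2 ^ ll := by positivity
  obtain ⟨Y', hYc', hYv', hY'⟩ := hSCY x (1 / 2 ^ ll) (8 * m) Y hxpos.le (by linarith) hδpos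
    (by omega) hYc hY
  have hlam : ((1 + 2 / ((8 * m : ℕ) : ℝ)) / (1 - x)) ^ 2 ≤ 1 + 5 * x := by
    have h1 : 2 / ((8 * m : ℕ) : ℝ) ≤ x / 4 := by
      push_cast
      have h2 : 2 / (8 * (m : ℝ)) = 1 / m / 4 := by
        field_simp
        norm_num
      rw [h2]
      linarith
    exact FNL_a x _ hxpos hx64 (by positivity) h1
  have hYv2 : volume Y' ≤ ENNReal.ofReal (M + 8 * x) := by
    rw [hYv']
    refine (mul_le_mul' (ENNReal.ofReal_le_ofReal hlam) hYvol).trans ?_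
    rw [← ENNReal.ofReal_mul (by linarith)]
    exact ENNReal.ofReal_le_ofReal (FNL_b x M hxpos hx64 hM1)
  have hδ : 6 / (m : ℝ) ≤ 1 / 2 ^ ll := FNL_d _ _ (by positivity) hmll
  obtain ⟨S, hS, hSv⟩ := hLFS m (8 * m) (1 / 2 ^ ll) Y' hm1 le_rfl hδ hYc'
    (ne_top_of_le_ne_top ENNReal.ofReal_ne_top hYv2) hY'
  have hSc : (S.card : ℝ) / (m : ℝ) ^ 2 ≤ M + 8 * x := by
    have h1 := hSv.trans hYv2
    rwa [ENNReal.ofReal_le_ofReal_iff (by linarith)] at h1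
  have hScm : (S.card : ℝ) ≤ (M + 8 * x) * (m : ℝ) ^ 2 := by
    rwa [div_le_iff₀ (by positivity)] at hSc
  have hdvd : m ∣ (8 * m) ^ 2 := ⟨64 * m, by ring⟩
  obtain ⟨S', hS', hbox, hcard⟩ := hBXW m (8 * m) (k + 6) S hm1 le_rfl hdvd hS
  -- the box
  have hSc2 : S.card ≤ 2 * m ^ 2 := by
    have h1 : (S.card : ℝ) ≤ 2 * (m : ℝ) ^ 2 := by
      refine hScm.trans ?_
      apply mul_le_mul_of_nonneg_right _ (by positivity)
      linarith
    exact_mod_cast h1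
  have hB : 4 * S.card * (16 * m * 2 ^ (k + 6) + 16 * m) ≤ m ^ 4 := by
    calc 4 * S.card * (16 * m * 2 ^ (k + 6) + 16 * m)
        ≤ 4 * (2 * m ^ 2) * (16 * m * 2 ^ (k + 6) + 16 * m) := by gcongr
      _ = m ^ 3 * (128 * (2 ^ (k + 6) + 1)) := by ring
      _ ≤ m ^ 3 * m := Nat.mul_le_mul_left _ hmbig
      _ = m ^ 4 := by ring
  have hBz : (4 * (S.card : ℤ) * (16 * m * 2 ^ (k + 6) + 16 * m)) ≤ ((m ^ 4 : ℕ) : ℤ) := by
    exact_mod_cast hB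
  have hmem : S'.card ∈ {c : ℕ | ∃ S : Finset (ℤ × ℤ),
      (∀ s ∈ S, 0 ≤ s.1 ∧ s.1 ≤ ((m ^ 4 : ℕ) : ℤ) ∧ 0 ≤ s.2 ∧ s.2 ≤ ((m ^ 4 : ℕ) : ℤ)) ∧
      FinCov m (8 * m) S ∧ S.card = c} := by
    refine ⟨S', fun s hs => ?_, hS', rfl⟩
    obtain ⟨h1, h2, h3, h4⟩ := hbox s hs
    exact ⟨h1, h2.trans hBz, h3, h4.trans hBz⟩
  have hopt : ((optk k : ℚ) : ℝ) = (opt m (8 * m) (m ^ 4) : ℝ) / (m : ℝ) ^ 2 := by
    unfold optk
    rw [hm]
    push_cast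
    ring
  rw [hopt]
  refine ⟨FNL_lower hLFC m (8 * m) (m ^ 4) hm1 le_rfl ⟨_, hmem⟩, ?_⟩
  have hle : (opt m (8 * m) (m ^ 4) : ℝ) ≤ S'.card := by
    have h1 : opt m (8 * m) (m ^ 4) ≤ S'.card := Nat.sInf_le hmem
    exact_mod_cast h1
  rw [← hMmu, ← ENNReal.ofReal_add hM0 (by positivity)]
  apply ENNReal.ofReal_le_ofReal
  rw [← hx2, div_le_iff₀ (by positivity)]
  refine hle.trans ?_
  -- the cardinality of S'
  have hcr : (16 * (m : ℝ) * 2 ^ (k + 6)) ^ 2 * S'.card ≤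
      S.card * (16 * (m : ℝ) * 2 ^ (k + 6) + 16 * m) ^ 2 := by
    exact_mod_cast hcard
  have hc2 : (S'.card : ℝ) ≤ S.card * (1 + x) ^ 2 := by
    have h1 : (0 : ℝ) < (16 * (m : ℝ) * 2 ^ (k + 6)) ^ 2 := by positivity
    refine le_of_mul_le_mul_left (hcr.trans (le_of_eq ?_)) h1
    have h2 : (16 * (m : ℝ) * 2 ^ (k + 6) + 16 * m) = 16 * (m : ℝ) * 2 ^ (k + 6) * (1 + x) := by
      rw [mul_add, mul_one, mul_assoc (16 * (m : ℝ)) (2 ^ (k + 6)) x, hx3, mul_one]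
    rw [h2]
    ring
  refine hc2.trans ?_
  have h3 : (S.card : ℝ) * (1 + x) ^ 2 ≤ (M + 8 * x) * (m : ℝ) ^ 2 * (1 + x) ^ 2 :=
    mul_le_mul_of_nonneg_right hScm (by positivity)
  refine h3.trans ?_
  have h4 := FNL_c x M hxpos hx64 hM0 hM1
  calc (M + 8 * x) * (m : ℝ) ^ 2 * (1 + x) ^ 2 = (M + 8 * x) * (1 + x) ^ 2 * (m : ℝ) ^ 2 := by ring
    _ ≤ (M + 64 * x) * (m : ℝ) ^ 2 := mul_le_mul_of_nonneg_right h4 (by positivity)

end Pool.Agent.MW
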